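import Pool.Agent.Helper73.SM.Goals

/-! Project SM (MP_c307ca_nt), packet EB: large values of `η`. -/

set_option autoImplicit false

namespace Pool.Agent.Helper27.SM

open Pool.Agent.Helper73.SM
open Finset hiding box

theorem card_int (F : Finset ℤ) (l u : ℝ) (hlu : l ≤ u)
    (h : ∀ b ∈ F, l ≤ (b : ℝ) ∧ (b : ℝ) ≤ u) : (F.card : ℝ) ≤ u - l + 1 := by
  have hsub : F ⊆ Icc ⌈l⌉ ⌊u⌋ := by
    intro b hb
    rw [mem_Icc]
    exact ⟨Int.ceil_le.2 (h b hb).1, Int.le_floor.2 (h b hb).2⟩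
  have h1 : (F.card : ℝ) ≤ ((⌊u⌋ + 1 - ⌈l⌉).toNat : ℝ) := by
    have := card_le_card hsub
    rw [Int.card_Icc] at this
    exact_mod_cast this
  have h4 : (⌊u⌋ : ℝ) ≤ u := Int.floor_le u
  have h5 : l ≤ (⌈l⌉ : ℝ) := Int.le_ceil l
  refine h1.trans ?_
  rcases le_total 0 (⌊u⌋ + 1 - ⌈l⌉) with h0 | h0
  · have h6 : (((⌊u⌋ + 1 - ⌈l⌉).toNat : ℤ) : ℝ) = ((⌊u⌋ + 1 - ⌈l⌉ : ℤ) : ℝ) := by
      rw [Int.toNat_of_nonneg h0]
    push_cast at h6
    rw [h6]
    linarith
  · rw [Int.toNat_of_nonpos h0]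
    push_cast
    linarith

theorem goalEB : StmtEB := by
  classical
  intro ξ t H hξ hH ht htH
  set S := (box H).filter (fun g => t * |lf ξ g.2| < |lf ξ g.1|) with hS
  set I : Finset ℤ := Icc (-(H : ℤ)) H with hI
  have hH0 : (1 : ℝ) ≤ H := by exact_mod_cast hH
  have ht0 : 0 < t := by linarith
  have hcI : (I.card : ℝ) = 2 * H + 1 := by
    rw [hI, Int.card_Icc]
    have : ((H : ℤ) + 1 - -(H : ℤ)).toNat = 2 * H + 1 := by omega
    rw [this]
    push_cast
    ring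
  have hmaps : ∀ g ∈ S, (fun g : Mat => (g.1, g.2.1)) g ∈ (I ×ˢ I) ×ˢ I := by
    intro g hg
    rw [hS, mem_filter] at hg
    have hb := hg.1
    simp only [box, mem_product] at hb
    simp only [mem_product]
    exact ⟨hb.1, hb.2.1⟩
  have hcard := card_eq_sum_card_fiberwise (f := fun g : Mat => (g.1, g.2.1)) (s := S)
    (t := (I ×ˢ I) ×ˢ I) hmaps
  have hfib : ∀ c ∈ (I ×ˢ I) ×ˢ I,
      (((S.filter (fun g : Mat => (g.1, g.2.1) = c)).card : ℕ) : ℝ) ≤ 6 * H / t + 1 := by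
    intro c hc
    have hinj : Set.InjOn (fun g : Mat => g.2.2)
        (S.filter (fun g : Mat => (g.1, g.2.1) = c) : Finset Mat) := by
      intro g hg g' hg' h
      simp only [coe_filter, Set.mem_ofPred_eq] at hg hg'
      have h1 := hg.2.trans hg'.2.symm
      simp only [Prod.mk.injEq] at h1
      exact Prod.ext h1.1 (Prod.ext h1.2 h)
    rw [← card_image_of_injOn hinj]
    have hb := card_int ((S.filter (fun g : Mat => (g.1, g.2.1) = c)).image (fun g : Mat => g.2.2))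
      (-(c.2 : ℝ) * ξ - 3 * H / t) (-(c.2 : ℝ) * ξ + 3 * H / t)
      (by
        have : 0 ≤ 3 * (H : ℝ) / t := by positivity
        linarith)
      (by
        intro b hb
        rw [mem_image] at hb
        obtain ⟨g, hg, rfl⟩ := hb
        rw [mem_filter] at hg
        obtain ⟨hgS, hgc⟩ := hg
        rw [hS, mem_filter] at hgS
        obtain ⟨hbox, hlt⟩ := hgS
        simp only [box, mem_product, mem_Icc] at hbox
        obtain ⟨⟨⟨a1, a2⟩, a3, a4⟩, -⟩ := hbox
        have b1 : |((g.1.1 : ℤ) : ℝ)| ≤ H := by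
          rw [abs_le]
          exact ⟨by exact_mod_cast a1, by exact_mod_cast a2⟩
        have b2 : |((g.1.2 : ℤ) : ℝ)| ≤ H := by
          rw [abs_le]
          exact ⟨by exact_mod_cast a3, by exact_mod_cast a4⟩
        have b3 : |lf ξ g.1| ≤ 3 * H := by
          unfold lf
          calc |(g.1.1 : ℝ) * ξ + (g.1.2 : ℝ)| ≤ |(g.1.1 : ℝ) * ξ| + |(g.1.2 : ℝ)| := abs_add_le _ _
            _ = |(g.1.1 : ℝ)| * |ξ| + |(g.1.2 : ℝ)| := by rw [abs_mul]
            _ ≤ H * 2 + H := by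
              have := mul_le_mul b1 hξ (abs_nonneg _) (by linarith : (0 : ℝ) ≤ H)
              linarith
            _ = 3 * H := by ring
        have b4 : |lf ξ g.2| < 3 * H / t := by
          rw [lt_div_iff₀ ht0]
          linarith [mul_comm t |lf ξ g.2|]
        have hc2 : g.2.1 = c.2 := by
          rw [← hgc]
        unfold lf at b4
        rw [hc2, abs_lt] at b4
        constructor <;> linarith [b4.1, b4.2])
    have e : -(c.2 : ℝ) * ξ + 3 * H / t - (-(c.2 : ℝ) * ξ - 3 * H / t) + 1 = 6 * H / t + 1 := by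
      ring
    rw [e] at hb
    exact hb
  have htot : (S.card : ℝ) ≤ (2 * H + 1) ^ 3 * (6 * H / t + 1) := by
    rw [hcard]
    push_cast
    calc ∑ c ∈ (I ×ˢ I) ×ˢ I, (((S.filter (fun g : Mat => (g.1, g.2.1) = c)).card : ℕ) : ℝ)
        ≤ ∑ _c ∈ (I ×ˢ I) ×ˢ I, (6 * (H : ℝ) / t + 1) := sum_le_sum hfib
      _ = (2 * H + 1) ^ 3 * (6 * H / t + 1) := by
        rw [sum_const, card_product, card_product, nsmul_eq_mul]
        push_cast
        rw [hcI]
        ring
  refine htot.trans ?_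
  have h1 : 6 * (H : ℝ) / t + 1 ≤ 10 * (2 * H + 1) / t := by
    rw [div_add_one ht0.ne']
    exact div_le_div_of_nonneg_right (by linarith) ht0.le
  calc (2 * (H : ℝ) + 1) ^ 3 * (6 * H / t + 1) ≤ (2 * (H : ℝ) + 1) ^ 3 * (10 * (2 * H + 1) / t) :=
        mul_le_mul_of_nonneg_left h1 (by positivity)
    _ = 10 * (2 * (H : ℝ) + 1) ^ 4 / t := by ring

end Pool.Agent.Helper27.SM
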