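import Pool.Agent.Helper73.SM.GoalsU

/-! Project CU (MP_c307ca_nt), packet UCP: primes dividing the approximants. -/

set_option autoImplicit false

namespace Pool.Agent.Helper27.SM

open Pool.Agent.Helper73.SM
open Finset hiding box

/-- some `l` in `[p - m, m]` has `p ∣ 3 l + s` -/
theorem exists_l {s : ℤ} {m p : ℕ} (hs : s = 1 ∨ s = -1) (hp : p.Prime) (hmp : m < p)
    (h : 2 * p + 1 ≤ 3 * m) : ∃ l : ℕ, p ≤ l + m ∧ l ≤ m ∧ (p : ℤ) ∣ 3 * (l : ℤ) + s := by
  have h3 : p % 3 ≠ 0 := by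
    intro h0
    have h1 : 3 ∣ p := Nat.dvd_of_mod_eq_zero h0
    have h2 := (Nat.prime_dvd_prime_iff_eq Nat.prime_three hp).1 h1
    omega
  have h4 : p % 3 = 1 ∨ p % 3 = 2 := by omega
  rcases hs with rfl | rfl
  · rcases h4 with h4 | h4
    · refine ⟨(p - 1) / 3, by omega, by omega, ⟨1, ?_⟩⟩
      omega
    · refine ⟨(2 * p - 1) / 3, by omega, by omega, ⟨2, ?_⟩⟩
      omega
  · rcases h4 with h4 | h4
    · refine ⟨(2 * p + 1) / 3, by omega, by omega, ⟨2, ?_⟩⟩
      omega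
    · refine ⟨(p + 1) / 3, by omega, by omega, ⟨1, ?_⟩⟩
      omega

theorem goalUCP (hUCZ : StmtUCZ) : StmtUCP := by
  intro s m p N hs hp hmp h
  have hpZ : Prime (p : ℤ) := Nat.prime_iff_prime_int.1 hp
  unfold PZ
  refine Finset.dvd_sum fun j hj => ?_
  rw [mem_range] at hj
  by_cases hjp : j + p ≤ 2 * m
  · have h1 : p ∣ (2 * m - j).choose m := hp.dvd_choose hmp (by omega) (by omega)
    have h2 : (p : ℤ) ∣ (((2 * m - j).choose m : ℕ) : ℤ) := by exact_mod_cast h1
    exact Dvd.dvd.mul_right (Dvd.dvd.mul_left h2 _) _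
  · have h1 : (p : ℤ) ∣ cz s m j := by
      obtain ⟨l, hl1, hl2, hl3⟩ := exists_l hs hp hmp h
      have h2 : (p : ℤ) ∣ cz s m j * (j.factorial : ℤ) := by
        rw [hUCZ.mul]
        refine Dvd.dvd.mul_left ?_ _
        refine Dvd.dvd.trans ?_ (dvd_prod_of_mem _ (mem_range.2 (show m - l < j by omega)))
        have e : 3 * (m : ℤ) + s - 3 * ((m - l : ℕ) : ℤ) = 3 * (l : ℤ) + s := by
          rw [Nat.cast_sub hl2]
          ring
        rw [e]
        exact hl3
      rcases hpZ.dvd_or_dvd h2 with h3 | h3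
      · exact h3
      · exfalso
        have h4 : p ∣ j.factorial := by exact_mod_cast h3
        have h5 := (hp.dvd_factorial).1 h4
        omega
    exact Dvd.dvd.mul_right (Dvd.dvd.mul_right h1 _) _

end Pool.Agent.Helper27.SM
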